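import Pool.Agent.Lib_MP_418a80_un.UF6
import Pool.Agent.Lib_MP_418a80_ab.Stmt

/-!
# Ergodic cocycle perturbations for groups with an open subgroup which is compact-by-`ℝⁿ`

For a second countable noncompact amenable locally compact group `G` which has an open subgroup
`L` and a continuous homomorphism with compact kernel of `L` onto `ℝⁿ`, and a II₁ factor `M` with
separable predual, every strictly outer action of `G` on `M` admits an ergodic cocycle
perturbation.
-/

set_option autoImplicit false

open MeasureTheory TopologicalSpace

namespace Pool.Agent.Results.MP_418a80_an.EuclideanByCompactOpen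

open Pool.Agent.AbCoc

universe u v

theorem result {G : Type v} [Group G] [TopologicalSpace G] [IsTopologicalGroup G]
    [SecondCountableTopology G] [LocallyCompactSpace G] [T2Space G] [NoncompactSpace G]
    [MeasurableSpace G] [BorelSpace G] (μ : Measure G) [μ.IsHaarMeasure]
    (hG : ErgLC.FolnerCondition μ)
    (L : Subgroup G) (hL : IsOpen (L : Set G)) (n : ℕ)
    (q : ↥L →* Multiplicative (EuclideanSpace ℝ (Fin n))) (hq : Continuous q)
    (hsurj : Function.Surjective q) (hker : IsCompact (q.ker : Set ↥L))
    {H : Type u} [NormedAddCommGroup H] [InnerProductSpace ℂ H] [CompleteSpace H]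
    [SeparableSpace H] (M : VonNeumannAlgebra H) (hM : IsII1Factor M)
    (α : G → (H →L[ℂ] H) → (H →L[ℂ] H)) (hα : IsAction M α)
    (hout : ErgCP.IsStrictlyOuter μ M α) :
    ∃ v : G → (H →L[ℂ] H), IsCocycle M α v ∧ PerturbationIsErgodic M α v :=
  union_theorem μ hG L hL n q hq hsurj hker hM hα ((ErgCP.isStrictlyOuter_iff μ M α).1 hout)

end Pool.Agent.Results.MP_418a80_an.EuclideanByCompactOpen
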